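import Pool.Agent.SHC.Straight

/-!
# SHC: sublevel sets of displacement functions are chain connected
-/

namespace Pool.Agent.SHC

open Filter Topology Metric

variable {X : Type*} [MetricSpace X] [ProperSpace X]
variable {G : Type*} [Group G] [MulAction G X] [IsIsometricSMul G X]

set_option linter.unusedSectionVars false

/-- Iterating the Birkhoff map brings the displacement below every non-minimal value. -/
theorem Straight.T_iter (hX : Straight X)
    (hp : ∀ (x : X) (r : ℝ), {g : G | dist x (g • x) ≤ r}.Finite)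
    (hc : ∃ (x : X) (R : ℝ), ∀ y : X, ∃ g : G, dist y (g • x) ≤ R)
    (γ : G) {c : ℝ} {y0 : X} (hy0 : disp γ y0 < c) (x : X) :
    ∃ k : ℕ, disp γ ((hX.T γ)^[k] x) < c := by
  by_contra hcon
  push Not at hcon
  obtain ⟨x0, R, hR⟩ := hc
  set u : ℕ → X := fun k => (hX.T γ)^[k] x with hu
  have hus : ∀ k, u (k + 1) = hX.T γ (u k) := fun k => Function.iterate_succ_apply' _ _ _
  have hanti : Antitone fun k => disp γ (u k) := by
    refine antitone_nat_of_succ_le fun k => ?_
    rw [hus]
    exact hX.disp_T γ _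
  obtain ⟨a, ha⟩ : ∃ a, Tendsto (fun k => disp γ (u k)) atTop (𝓝 a) :=
    ⟨_, tendsto_atTop_ciInf hanti ⟨c, by rintro _ ⟨k, rfl⟩; exact hcon k⟩⟩
  have hac : c ≤ a := ge_of_tendsto' ha hcon
  choose g hg using fun k => hR (u k)
  -- the conjugates
  set δ : ℕ → G := fun k => (g k)⁻¹ * γ * g k with hδ
  set z : ℕ → X := fun k => (g k)⁻¹ • u k with hz
  have hz0 : ∀ k, dist (z k) x0 ≤ R := by
    intro k
    have := hg k
    rw [← dist_smul (g k)⁻¹, inv_smul_smul] at this
    exact this
  have hδx : ∀ k, dist x0 (δ k • x0) ≤ disp γ x + 2 * R := by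
    intro k
    have h1 := disp_lip (δ k) x0 (z k)
    have h2 : disp (δ k) (z k) = disp γ (u k) := disp_conj _ _ _
    have h3 : disp γ (u k) ≤ disp γ x := hanti (Nat.zero_le k)
    have h4 := hz0 k
    rw [dist_comm] at h4
    have h5 : disp (δ k) x0 = dist x0 (δ k • x0) := rfl
    linarith
  -- a constant subsequence of conjugates
  obtain ⟨e, he⟩ : ∃ e : G, ∃ᶠ k in atTop, δ k = e := by
    by_contra h
    push Not at h
    have hfin := hp x0 (disp γ x + 2 * R)
    have h1 : ∀ᶠ k in atTop, ∀ e ∈ {g : G | dist x0 (g • x0) ≤ disp γ x + 2 * R}, δ k ≠ e := by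
      rw [Set.Finite.eventually_all hfin]
      intro e _
      exact h e
    obtain ⟨k, hk⟩ := h1.exists
    exact hk _ (hδx k) rfl
  obtain ⟨φ, hφ, hφe⟩ := extraction_of_frequently_atTop he
  obtain ⟨w, -, ψ, hψ, hw⟩ := tendsto_subseq_of_bounded (isBounded_closedBall (x := x0) (r := R))
    (x := fun k => z (φ k)) (fun k => by rw [mem_closedBall]; exact hz0 _)
  have hlim : ∀ f : ℕ → ℝ, Tendsto f atTop (𝓝 a) → Tendsto (fun k => f (φ (ψ k))) atTop (𝓝 a) :=
    fun f hf => hf.comp (hφ.tendsto_atTop.comp hψ.tendsto_atTop)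
  have e1 : disp e w = a := by
    refine tendsto_nhds_unique ((disp_continuous e).continuousAt.tendsto.comp hw) ?_
    refine (hlim _ ha).congr fun k => ?_
    simp only [Function.comp]
    rw [← hφe (ψ k)]
    exact (disp_conj _ _ _).symm
  have e2 : disp e (hX.T e w) = a := by
    refine tendsto_nhds_unique
      (((disp_continuous e).comp (hX.T_continuous e)).continuousAt.tendsto.comp hw) ?_
    have ha1 : Tendsto (fun k => disp γ (u (k + 1))) atTop (𝓝 a) := ha.comp (tendsto_add_atTop_nat 1)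
    refine (hlim _ ha1).congr fun k => ?_
    simp only [Function.comp]
    rw [← hφe (ψ k), hus]
    show _ = disp ((g (φ (ψ k)))⁻¹ * γ * g (φ (ψ k))) (hX.T _ ((g (φ (ψ k)))⁻¹ • u (φ (ψ k))))
    rw [hX.T_conj, disp_conj]
  have e3 := hX.min_of_eq (γ := e) (x := w) (by rw [e1, e2]) ((g (φ 0))⁻¹ • y0)
  rw [e1, ← hφe 0] at e3
  have e4 : disp (δ (φ 0)) ((g (φ 0))⁻¹ • y0) = disp γ y0 := disp_conj _ _ _
  rw [e4] at e3
  linarith

theorem Straight.T_iter_continuous (hX : Straight X) (γ : G) (k : ℕ) :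
    Continuous ((hX.T γ)^[k] : X → X) :=
  (hX.T_continuous γ).iterate k

/-- Uniformity on compact sets. -/
theorem Straight.T_unif (hX : Straight X)
    (hp : ∀ (x : X) (r : ℝ), {g : G | dist x (g • x) ≤ r}.Finite)
    (hc : ∃ (x : X) (R : ℝ), ∀ y : X, ∃ g : G, dist y (g • x) ≤ R)
    (γ : G) {c : ℝ} {y0 : X} (hy0 : disp γ y0 < c) {K : Set X} (hK : IsCompact K) :
    ∃ k : ℕ, ∀ x ∈ K, disp γ ((hX.T γ)^[k] x) < c := by
  have hmono : Monotone fun k : ℕ => {x : X | disp γ ((hX.T γ)^[k] x) < c} := by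
    refine monotone_nat_of_le_succ fun k => ?_
    intro x hx
    rw [Set.mem_ofPred_eq] at hx ⊢
    rw [Function.iterate_succ_apply']
    exact (hX.disp_T γ _).trans_lt hx
  obtain ⟨k, hk⟩ := hK.elim_directed_cover (fun k : ℕ => {x : X | disp γ ((hX.T γ)^[k] x) < c})
    (fun k => isOpen_lt ((disp_continuous γ).comp (hX.T_iter_continuous γ k)) continuous_const)
    (fun x _ => by
      rw [Set.mem_iUnion]
      exact hX.T_iter hp hc γ hy0 x)
    (hmono.directed_le)
  exact ⟨k, fun x hx => hk hx⟩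

/-- The step relation in a sublevel set. -/
def Step (γ : G) (c δ : ℝ) (p q : X) : Prop := disp γ p ≤ c ∧ disp γ q ≤ c ∧ dist p q ≤ δ

theorem Step.symm {γ : G} {c δ : ℝ} {p q : X} (h : Step γ c δ p q) : Step γ c δ q p :=
  ⟨h.2.1, h.1, by rw [dist_comm]; exact h.2.2⟩

theorem Straight.chain_T (hX : Straight X) (γ : G) {c δ : ℝ} (hδ : 0 < δ) {x : X}
    (hx : disp γ x ≤ c) (k : ℕ) : Relation.ReflTransGen (Step γ c δ) x ((hX.T γ)^[k] x) := by
  induction k with
  | zero => exact Relation.ReflTransGen.refl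
  | succ k ih =>
    refine ih.trans ?_
    have h1 : disp γ ((hX.T γ)^[k] x) ≤ c := by
      clear ih
      induction k with
      | zero => exact hx
      | succ k ih =>
        rw [Function.iterate_succ_apply']
        exact (hX.disp_T γ _).trans ih
    rw [Function.iterate_succ_apply']
    set y := (hX.T γ)^[k] x
    refine Relation.ReflTransGen.mono ?_ _ _ (hX.chain' hδ y (hX.T γ y))
    rintro p q ⟨b1, b2, b3⟩
    have b4 : Btw y (hX.T γ y) (γ • y) := hX.m_btw _ _
    exact ⟨(disp_btw (b4.trans_left b1)).trans h1, (disp_btw (b4.trans_left b2)).trans h1, b3⟩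

/-- Sublevel sets are chain connected. -/
theorem Straight.sublevel (hX : Straight X)
    (hp : ∀ (x : X) (r : ℝ), {g : G | dist x (g • x) ≤ r}.Finite)
    (hc : ∃ (x : X) (R : ℝ), ∀ y : X, ∃ g : G, dist y (g • x) ≤ R)
    (γ : G) {c δ : ℝ} (hδ : 0 < δ) {x y : X} (hx : disp γ x < c) (hy : disp γ y < c) :
    Relation.ReflTransGen (Step γ c δ) x y := by
  have hK : IsCompact (closedBall x (dist x y)) := isCompact_closedBall _ _
  obtain ⟨k, hk⟩ := hX.T_unif hp hc γ hx hK
  have huc := hK.uniformContinuousOn_of_continuous (hX.T_iter_continuous γ k).continuousOn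
  rw [Metric.uniformContinuousOn_iff] at huc
  obtain ⟨ε, hε, huc⟩ := huc δ hδ
  have h1 : Relation.ReflTransGen (Step γ c δ) ((hX.T γ)^[k] x) ((hX.T γ)^[k] y) := by
    refine Relation.ReflTransGen.lift (fun p => (hX.T γ)^[k] p) ?_ _ _ (hX.chain' (half_pos hε) x y)
    rintro p q ⟨b1, b2, b3⟩
    have hp' : p ∈ closedBall x (dist x y) := by
      rw [mem_closedBall, dist_comm]
      unfold Btw at b1
      have := dist_nonneg (x := p) (y := y)
      linarith
    have hq' : q ∈ closedBall x (dist x y) := by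
      rw [mem_closedBall, dist_comm]
      unfold Btw at b2
      have := dist_nonneg (x := q) (y := y)
      linarith
    exact ⟨(hk p hp').le, (hk q hq').le, (huc p hp' q hq' (by linarith)).le⟩
  have h2 := hX.chain_T γ hδ hx.le k
  have h3 := hX.chain_T γ hδ hy.le k
  have h4 : Relation.ReflTransGen (Step γ c δ) ((hX.T γ)^[k] y) y :=
    haveI : Std.Symm (Step (X := X) γ c δ) := ⟨fun _ _ h => Step.symm h⟩
    Std.Symm.symm _ _ h3
  exact h2.trans (h1.trans h4)

end Pool.Agent.SHC
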