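import Mathlib

/-!
# SHC: word length and the finite part of the argument
-/

namespace Pool.Agent.SHC

variable {G : Type*} [Group G]

/-- `l` is a word in the letters of `S` and their inverses. -/
def IsWord (S : Set G) (l : List G) : Prop := ∀ s ∈ l, s ∈ S ∨ s⁻¹ ∈ S

/-- `g` is the value of a word of length at most `n` in the letters of `S` and their inverses. -/
def InBall (S : Set G) (n : ℕ) (g : G) : Prop :=
  ∃ l : List G, l.length ≤ n ∧ IsWord S l ∧ l.prod = g

variable {S : Set G}

theorem IsWord.append {l l' : List G} (h : IsWord S l) (h' : IsWord S l') : IsWord S (l ++ l') := by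
  intro s hs
  rcases List.mem_append.mp hs with hs | hs
  · exact h s hs
  · exact h' s hs

theorem IsWord.take {l : List G} (h : IsWord S l) (k : ℕ) : IsWord S (l.take k) :=
  fun s hs => h s (List.mem_of_mem_take hs)

theorem IsWord.drop {l : List G} (h : IsWord S l) (k : ℕ) : IsWord S (l.drop k) :=
  fun s hs => h s (List.mem_of_mem_drop hs)

theorem IsWord.inv {l : List G} (h : IsWord S l) : IsWord S (l.map (·⁻¹)).reverse := by
  intro s hs
  rw [List.mem_reverse, List.mem_map] at hs
  obtain ⟨a, ha, rfl⟩ := hs
  rw [inv_inv]
  exact (h a ha).symm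

theorem InBall.mono {n m : ℕ} (h : n ≤ m) {g : G} (hg : InBall S n g) : InBall S m g := by
  obtain ⟨l, h1, h2, h3⟩ := hg
  exact ⟨l, h1.trans h, h2, h3⟩

theorem InBall.one (n : ℕ) : InBall S n (1 : G) := ⟨[], Nat.zero_le _, fun _ h => by simp at h, rfl⟩

theorem InBall.mul {n m : ℕ} {g h : G} (hg : InBall S n g) (hh : InBall S m h) :
    InBall S (n + m) (g * h) := by
  obtain ⟨l, h1, h2, h3⟩ := hg
  obtain ⟨l', h1', h2', h3'⟩ := hh
  exact ⟨l ++ l', by rw [List.length_append]; omega, h2.append h2', by
    rw [List.prod_append, h3, h3']⟩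

theorem InBall.inv {n : ℕ} {g : G} (hg : InBall S n g) : InBall S n g⁻¹ := by
  obtain ⟨l, h1, h2, h3⟩ := hg
  exact ⟨(l.map (·⁻¹)).reverse, by simpa using h1, h2.inv, by
    rw [← h3, List.prod_inv_reverse]⟩

theorem InBall.word {l : List G} (h : IsWord S l) : InBall S l.length l.prod :=
  ⟨l, le_rfl, h, rfl⟩

theorem InBall.listProd {W : ℕ} : ∀ {l : List G}, (∀ s ∈ l, InBall S W s) →
    InBall S (l.length * W) l.prod
  | [], _ => InBall.one _
  | s :: l, h => by
    rw [List.prod_cons, List.length_cons, Nat.add_mul, one_mul, add_comm]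
    exact (h s (by simp)).mul (InBall.listProd fun s hs => h s (by simp [hs]))

/-- Every element of the subgroup generated by `S` is the value of a word. -/
theorem exists_inBall (hS : Subgroup.closure S = ⊤) (g : G) : ∃ n, InBall S n g := by
  have hg : g ∈ Subgroup.closure S := by
    rw [hS]
    trivial
  induction hg using Subgroup.closure_induction with
  | mem x hx => exact ⟨1, [x], le_rfl, by simpa [IsWord] using Or.inl hx, by simp⟩
  | one => exact ⟨0, InBall.one 0⟩
  | mul x y _ _ hx hy =>
    obtain ⟨n, hn⟩ := hx
    obtain ⟨m, hm⟩ := hy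
    exact ⟨n + m, hn.mul hm⟩
  | inv x _ hx =>
    obtain ⟨n, hn⟩ := hx
    exact ⟨n, hn.inv⟩

theorem exists_inBall_finite (hS : Subgroup.closure S = ⊤) {F : Set G} (hF : F.Finite) :
    ∃ W, ∀ g ∈ F, InBall S W g := by
  choose f hf using exists_inBall hS
  obtain ⟨W, hW⟩ := (hF.image f).bddAbove
  exact ⟨W, fun g hg => (hf g).mono (hW ⟨g, hg, rfl⟩)⟩

open scoped Classical Pointwise in
/-- Balls are finite, with exponentially bounded size. -/
theorem ball_card (hS : S.Finite) (n : ℕ) :
    {g : G | InBall S n g}.Finite ∧ {g : G | InBall S n g}.ncard ≤ (2 * S.ncard + 1) ^ n := by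
  set A : Set G := insert 1 (S ∪ S⁻¹) with hA
  have hAf : A.Finite := (hS.union hS.inv).insert 1
  have hAc : A.ncard ≤ 2 * S.ncard + 1 := by
    calc A.ncard ≤ (S ∪ S⁻¹).ncard + 1 := Set.ncard_insert_le _ _
      _ ≤ S.ncard + (S⁻¹).ncard + 1 := by
        gcongr
        exact Set.ncard_union_le _ _
      _ = 2 * S.ncard + 1 := by
        have : (S⁻¹).ncard = S.ncard := by
          rw [← Set.image_inv_eq_inv]
          exact Set.ncard_image_of_injective _ inv_injective
        omega
  have key : ∀ n, {g : G | InBall S n g} ⊆ A ^ n := by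
    intro n
    induction n with
    | zero =>
      rintro g ⟨l, h1, -, rfl⟩
      have : l = [] := List.length_eq_zero_iff.mp (by omega)
      subst this
      simp
    | succ n ih =>
      rintro g ⟨l, h1, h2, rfl⟩
      cases l with
      | nil =>
        rw [List.prod_nil]
        have : (1 : G) ∈ A ^ n := ih (InBall.one n)
        rw [pow_succ]
        exact ⟨1, this, 1, Set.mem_insert _ _, mul_one 1⟩
      | cons s l =>
        rw [List.prod_cons, pow_succ']
        refine ⟨s, Or.inr ?_, l.prod, ih ⟨l, ?_, fun x hx => h2 x (by simp [hx]), rfl⟩, rfl⟩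
        · rcases h2 s (by simp) with h | h
          · exact Or.inl h
          · exact Or.inr (by rwa [Set.mem_inv])
        · rw [List.length_cons] at h1
          omega
  have hfin : ∀ n, (A ^ n).Finite ∧ (A ^ n).ncard ≤ A.ncard ^ n := by
    intro n
    induction n with
    | zero =>
      rw [pow_zero, pow_zero]
      refine ⟨Set.finite_one, ?_⟩
      rw [← Set.singleton_one, Set.ncard_singleton]
    | succ n ih =>
      rw [pow_succ, pow_succ]
      refine ⟨ih.1.mul hAf, ?_⟩
      calc (A ^ n * A).ncard = ((fun p : G × G => p.1 * p.2) '' ((A ^ n) ×ˢ A)).ncard := by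
            rw [Set.image_mul_prod]
        _ ≤ ((A ^ n) ×ˢ A).ncard := Set.ncard_image_le (ih.1.prod hAf)
        _ = (A ^ n).ncard * A.ncard := Set.ncard_prod
        _ ≤ A.ncard ^ n * A.ncard := Nat.mul_le_mul_right _ ih.2
  refine ⟨(hfin n).1.subset (key n), ?_⟩
  calc {g : G | InBall S n g}.ncard ≤ (A ^ n).ncard := Set.ncard_le_ncard (key n) (hfin n).1
    _ ≤ A.ncard ^ n := (hfin n).2
    _ ≤ (2 * S.ncard + 1) ^ n := Nat.pow_le_pow_left hAc n

/-- `l` conjugates `a` through elements of the ball of radius `N`. -/
def Path (S : Set G) (N : ℕ) (a : G) (l : List G) : Prop :=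
  IsWord S l ∧ ∀ k, InBall S N ((l.take k).prod⁻¹ * a * (l.take k).prod)

theorem Path.take {N : ℕ} {a : G} {l : List G} (h : Path S N a l) (j : ℕ) :
    Path S N a (l.take j) := by
  refine ⟨h.1.take j, fun k => ?_⟩
  rw [List.take_take]
  exact h.2 _

/-- Shortening of paths. -/
theorem Path.short (hS : S.Finite) {N : ℕ} {a : G} {l : List G} (h : Path S N a l) :
    ∃ l' : List G, Path S N a l' ∧ l'.prod⁻¹ * a * l'.prod = l.prod⁻¹ * a * l.prod ∧
      l'.length ≤ (2 * S.ncard + 1) ^ N := by
  classical
  -- a shortest path with the same end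
  have hex : ∃ m, ∃ l' : List G, l'.length = m ∧ Path S N a l' ∧
      l'.prod⁻¹ * a * l'.prod = l.prod⁻¹ * a * l.prod := ⟨_, l, rfl, h, rfl⟩
  obtain ⟨l', hl1, hl2, hl3⟩ := Nat.find_spec hex
  refine ⟨l', hl2, hl3, ?_⟩
  by_contra hc
  push Not at hc
  obtain ⟨hfin, hcard⟩ := ball_card hS N
  -- two equal conjugates
  have hmaps : ∀ k ∈ Finset.range (l'.length + 1),
      (l'.take k).prod⁻¹ * a * (l'.take k).prod ∈ hfin.toFinset := by
    intro k _
    rw [Set.Finite.mem_toFinset]
    exact hl2.2 k
  have hlt : hfin.toFinset.card < (Finset.range (l'.length + 1)).card := by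
    rw [Finset.card_range, ← Set.ncard_eq_toFinset_card _ hfin]
    omega
  obtain ⟨i, hi, j, hj, hij, heq⟩ := Finset.exists_ne_map_eq_of_card_lt_of_maps_to hlt hmaps
  wlog hlt2 : i < j generalizing i j
  · exact this j hj i hi hij.symm heq.symm (by omega)
  rw [Finset.mem_range] at hi hj
  set l'' := l'.take i ++ l'.drop j with hl''
  have hprod : ∀ k, (l''.take (i + k)).prod⁻¹ * a * (l''.take (i + k)).prod =
      (l'.take (j + k)).prod⁻¹ * a * (l'.take (j + k)).prod := by
    intro k
    have e1 : l''.take (i + k) = l'.take i ++ (l'.drop j).take k := by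
      rw [hl'', List.take_append]
      have : (l'.take i).length = i := by rw [List.length_take]; omega
      rw [this, Nat.add_sub_cancel_left, List.take_of_length_le (by omega)]
    have e2 : l'.take (j + k) = l'.take j ++ (l'.drop j).take k := by
      rw [List.take_add]
    rw [e1, e2, List.prod_append, List.prod_append]
    simp only [mul_inv_rev]
    calc (List.take k (List.drop j l')).prod⁻¹ * (List.take i l').prod⁻¹ * a *
          ((List.take i l').prod * (List.take k (List.drop j l')).prod)
        = (List.take k (List.drop j l')).prod⁻¹ * ((List.take i l').prod⁻¹ * a *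
          (List.take i l').prod) * (List.take k (List.drop j l')).prod := by group
      _ = (List.take k (List.drop j l')).prod⁻¹ * ((List.take j l').prod⁻¹ * a *
          (List.take j l').prod) * (List.take k (List.drop j l')).prod := by rw [heq]
      _ = _ := by group
  have hlen : l''.length < l'.length := by
    rw [hl'', List.length_append, List.length_take, List.length_drop]
    omega
  have hP : Path S N a l'' := by
    refine ⟨(hl2.1.take i).append (hl2.1.drop j), fun k => ?_⟩
    rcases Nat.lt_or_ge k i with hk | hk
    · have : l''.take k = l'.take k := by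
        rw [hl'', List.take_append_of_le_length (by rw [List.length_take]; omega), List.take_take,
          min_eq_left hk.le]
      rw [this]
      exact hl2.2 k
    · obtain ⟨m, rfl⟩ := Nat.exists_eq_add_of_le hk
      rw [hprod m]
      exact hl2.2 _
  have hend : l''.prod⁻¹ * a * l''.prod = l.prod⁻¹ * a * l.prod := by
    have h1 := hprod l'.length
    rw [List.take_of_length_le (by omega), List.take_of_length_le (by omega)] at h1
    rw [h1, hl3]
  have h5 := Nat.find_min' hex ⟨l'', rfl, hP, hend⟩
  omega

/-- The centraliser is generated by short elements, if all its elements have paths. -/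
theorem centralizer_gen (hS : S.Finite) {N : ℕ} {a : G}
    (h : ∀ z ∈ Subgroup.centralizer {a}, ∃ l : List G, l.prod = z ∧ Path S N a l) :
    Subgroup.closure {z | z ∈ Subgroup.centralizer {a} ∧
      InBall S (2 * (2 * S.ncard + 1) ^ N + 1) z} = Subgroup.centralizer {a} := by
  apply le_antisymm
  · rw [Subgroup.closure_le]
    exact fun z hz => hz.1
  · intro z hz
    obtain ⟨l, rfl, hl⟩ := h z hz
    -- short paths to all conjugates along `l`
    have hs : ∀ k, ∃ l' : List G, Path S N a l' ∧
        l'.prod⁻¹ * a * l'.prod = (l.take k).prod⁻¹ * a * (l.take k).prod ∧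
        l'.length ≤ (2 * S.ncard + 1) ^ N := fun k => (hl.take k).short hS
    choose t ht1 ht2 ht3 using hs
    have hcen : ∀ g : G, g⁻¹ * a * g = a → g ∈ Subgroup.centralizer {a} := by
      intro g hg
      rw [Subgroup.mem_centralizer_iff]
      intro b hb
      rw [Set.mem_singleton_iff] at hb
      subst hb
      calc b * g = g * (g⁻¹ * b * g) := by group
        _ = g * b := by rw [hg]
    -- along `l` the products differ from the short paths by elements of the closure
    have key : ∀ k, (l.take k).prod * (t k).prod⁻¹ ∈ Subgroup.closure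
        {z | z ∈ Subgroup.centralizer {a} ∧ InBall S (2 * (2 * S.ncard + 1) ^ N + 1) z} := by
      intro k
      induction k with
      | zero =>
        apply Subgroup.subset_closure
        have h1 := ht2 0
        simp only [List.take_zero, List.prod_nil, inv_one, one_mul, mul_one] at h1 ⊢
        refine ⟨hcen _ ?_, ?_⟩
        · rw [inv_inv]
          calc (t 0).prod * a * (t 0).prod⁻¹
              = (t 0).prod * ((t 0).prod⁻¹ * a * (t 0).prod) * (t 0).prod⁻¹ := by rw [h1]
            _ = a := by group
        · refine ((InBall.word (ht1 0).1).inv).mono ?_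
          have := ht3 0
          omega
      | succ k ih =>
        rcases Nat.lt_or_ge k l.length with hk | hk
        · have e1 : (l.take (k + 1)).prod = (l.take k).prod * l[k] := by
            rw [List.take_succ_eq_append_getElem hk, List.prod_append, List.prod_singleton]
          have e2 : (l.take (k + 1)).prod * (t (k + 1)).prod⁻¹ =
              ((l.take k).prod * (t k).prod⁻¹) * ((t k).prod * l[k] * (t (k + 1)).prod⁻¹) := by
            rw [e1]
            group
          rw [e2]
          refine Subgroup.mul_mem _ ih (Subgroup.subset_closure ⟨hcen _ ?_, ?_⟩)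
          · have h1 := ht2 k
            have h2 := ht2 (k + 1)
            rw [e1] at h2
            calc ((t k).prod * l[k] * (t (k + 1)).prod⁻¹)⁻¹ * a *
                  ((t k).prod * l[k] * (t (k + 1)).prod⁻¹)
                = (t (k + 1)).prod * (l[k]⁻¹ * ((t k).prod⁻¹ * a * (t k).prod) * l[k]) *
                  (t (k + 1)).prod⁻¹ := by group
              _ = (t (k + 1)).prod * (((l.take k).prod * l[k])⁻¹ * a * ((l.take k).prod * l[k])) *
                  (t (k + 1)).prod⁻¹ := by
                rw [h1]
                group
              _ = (t (k + 1)).prod * ((t (k + 1)).prod⁻¹ * a * (t (k + 1)).prod) *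
                  (t (k + 1)).prod⁻¹ := by rw [h2]
              _ = a := by group
          · have h1 := InBall.word (ht1 k).1
            have h2 := (InBall.word (ht1 (k + 1)).1).inv
            have h3 : InBall S 1 l[k] :=
              ⟨[l[k]], le_rfl, by
                intro s hs
                rw [List.mem_singleton] at hs
                rw [hs]
                exact hl.1 _ (List.getElem_mem hk), by simp⟩
            refine ((h1.mul h3).mul h2).mono ?_
            have := ht3 k
            have := ht3 (k + 1)
            omega
        · have e1 : l.take (k + 1) = l.take k := by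
            rw [List.take_of_length_le (by omega), List.take_of_length_le hk]
          have e2 : (l.take (k + 1)).prod * (t (k + 1)).prod⁻¹ =
              ((l.take k).prod * (t k).prod⁻¹) * ((t k).prod * (t (k + 1)).prod⁻¹) := by
            rw [e1]
            group
          rw [e2]
          refine Subgroup.mul_mem _ ih (Subgroup.subset_closure ⟨hcen _ ?_, ?_⟩)
          · have h1 := ht2 k
            have h2 := ht2 (k + 1)
            rw [e1, ← h1] at h2
            calc ((t k).prod * (t (k + 1)).prod⁻¹)⁻¹ * a * ((t k).prod * (t (k + 1)).prod⁻¹)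
                = (t (k + 1)).prod * ((t k).prod⁻¹ * a * (t k).prod) * (t (k + 1)).prod⁻¹ := by
                  group
              _ = (t (k + 1)).prod * ((t (k + 1)).prod⁻¹ * a * (t (k + 1)).prod) *
                  (t (k + 1)).prod⁻¹ := by rw [h2]
              _ = a := by group
          · have h1 := InBall.word (ht1 k).1
            have h2 := (InBall.word (ht1 (k + 1)).1).inv
            refine (h1.mul h2).mono ?_
            have := ht3 k
            have := ht3 (k + 1)
            omega
    have hL : l.take l.length = l := List.take_of_length_le le_rfl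
    have h1 := key l.length
    have h2 := ht2 l.length
    have h3 := ht3 l.length
    rw [hL] at h1 h2
    have h4 : l.prod⁻¹ * a * l.prod = a := by
      rw [Subgroup.mem_centralizer_iff] at hz
      have h5 := hz a rfl
      rw [mul_assoc, h5]
      group
    rw [h4] at h2
    have h6 : (t l.length).prod ∈ Subgroup.closure
        {z | z ∈ Subgroup.centralizer {a} ∧ InBall S (2 * (2 * S.ncard + 1) ^ N + 1) z} := by
      refine Subgroup.subset_closure ⟨hcen _ h2, (InBall.word (ht1 l.length).1).mono ?_⟩
      omega
    have h7 := Subgroup.mul_mem _ h1 h6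
    rwa [inv_mul_cancel_right] at h7

end Pool.Agent.SHC
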