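import Pool.Agent.SHC.Chain
import Pool.Agent.SHC.Words

/-!
# SHC: conjugation along words
-/

namespace Pool.Agent.SHC

open Filter Topology Metric

variable {X : Type*} [MetricSpace X]
variable {G : Type*} [Group G] [MulAction G X] [IsIsometricSMul G X]

set_option linter.unusedSectionVars false

theorem disp_inv (x : X) (g : G) : disp g⁻¹ x = disp g x := by
  unfold disp
  rw [← dist_smul g x (g⁻¹ • x), smul_inv_smul, dist_comm]

theorem disp_mul (x : X) (g h : G) : disp (g * h) x ≤ disp g x + disp h x := by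
  unfold disp
  have h1 := dist_triangle x (g • x) ((g * h) • x)
  rw [mul_smul, dist_smul] at h1
  rw [mul_smul]
  exact h1

theorem disp_one (x : X) : disp (1 : G) x = 0 := by
  unfold disp
  rw [one_smul, dist_self]

theorem disp_conj' (x : X) (a g : G) : disp (g⁻¹ * a * g) x = disp a (g • x) := by
  unfold disp
  rw [← dist_smul g x, smul_smul, smul_smul]
  congr 2
  group

theorem disp_list {S : Set G} {x : X} {M : ℝ} (hM : ∀ s ∈ S, disp s x ≤ M) :
    ∀ {l : List G}, IsWord S l → disp l.prod x ≤ l.length * M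
  | [], _ => by simp [disp_one]
  | s :: l, h => by
    rw [List.prod_cons, List.length_cons]
    have h1 := disp_mul x s l.prod
    have h2 := disp_list hM (l := l) fun t ht => h t (by simp [ht])
    have h3 : disp s x ≤ M := by
      rcases h s (by simp) with h3 | h3
      · exact hM s h3
      · rw [← disp_inv]
        exact hM _ h3
    push_cast
    linarith

/-- Elements that move the base point little are short. -/
theorem short_of_disp (hX : Straight X) {S : Set G} {x0 : X} {R : ℝ}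
    (hR : ∀ y : X, ∃ g : G, dist y (g • x0) ≤ R) {W : ℕ}
    (hW : ∀ g : G, disp g x0 ≤ 2 * R + 1 → InBall S W g) :
    ∀ (k : ℕ) (x y : X) (g g' : G), dist x y ≤ 2 ^ k → dist x (g • x0) ≤ R →
      dist y (g' • x0) ≤ R → InBall S (2 ^ k * W) (g⁻¹ * g')
  | 0, x, y, g, g', h, h1, h2 => by
    rw [pow_zero, one_mul]
    apply hW
    unfold disp
    rw [← dist_smul g x0, mul_smul, smul_inv_smul]
    have h3 := dist_triangle4 (g • x0) x y (g' • x0)
    rw [dist_comm (g • x0) x] at h3
    rw [pow_zero] at h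
    linarith
  | k + 1, x, y, g, g', h, h1, h2 => by
    obtain ⟨g'', h3⟩ := hR (hX.m x y)
    have h4 : dist x (hX.m x y) ≤ 2 ^ k := by
      rw [hX.m_left]
      rw [pow_succ] at h
      linarith
    have h5 : dist (hX.m x y) y ≤ 2 ^ k := by
      rw [hX.m_right]
      rw [pow_succ] at h
      linarith
    have h6 := short_of_disp hX hR hW k x (hX.m x y) g g'' h4 h1 h3
    have h7 := short_of_disp hX hR hW k (hX.m x y) y g'' g' h5 h3 h2
    have h8 := h6.mul h7
    rw [← Nat.add_mul, ← two_mul, ← pow_succ'] at h8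
    have h9 : g⁻¹ * g'' * (g''⁻¹ * g') = g⁻¹ * g' := by group
    rwa [h9] at h8

theorem short_of_disp' (hX : Straight X) {S : Set G} {x0 : X} {R : ℝ} (hR0 : 0 ≤ R)
    (hR : ∀ y : X, ∃ g : G, dist y (g • x0) ≤ R) {W : ℕ}
    (hW : ∀ g : G, disp g x0 ≤ 2 * R + 1 → InBall S W g) {r : ℕ} (hr : 1 ≤ r) {g : G}
    (hg : disp g x0 ≤ r) : InBall S (2 * r * W) g := by
  have h1 : r ≤ 2 ^ Nat.clog 2 r := Nat.le_pow_clog (by norm_num) r
  have h2 : 2 ^ Nat.clog 2 r ≤ 2 * r := by
    rcases Nat.lt_or_ge 1 r with h | h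
    · have h3 := Nat.pow_pred_clog_lt_self (b := 2) (by norm_num) h
      have h4 : 1 ≤ Nat.clog 2 r := Nat.clog_pos (by norm_num) h
      have h5 : 2 ^ Nat.clog 2 r = 2 * 2 ^ (Nat.clog 2 r - 1) := by
        rw [← pow_succ', Nat.sub_add_cancel h4]
      rw [h5]
      exact Nat.mul_le_mul_left 2 (by simpa using h3.le)
    · have : r = 1 := by omega
      subst this
      simp
  have h3 := short_of_disp hX hR hW (Nat.clog 2 r) x0 (g • x0) 1 g (by
    have h4 : dist x0 (g • x0) = disp g x0 := rfl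
    rw [h4]
    refine hg.trans ?_
    exact_mod_cast h1) (by rw [one_smul, dist_self]; exact hR0) (by rw [dist_self]; exact hR0)
  rw [inv_one, one_mul] at h3
  exact h3.mono (Nat.mul_le_mul_right W h2)

/-- A chain in a sublevel set gives a word. -/
theorem word_of_chain {S : Set G} {x0 : X} {R : ℝ} (hR0 : 0 ≤ R)
    (hR : ∀ y : X, ∃ g : G, dist y (g • x0) ≤ R) {W : ℕ}
    (hW : ∀ g : G, disp g x0 ≤ 2 * R + 1 → InBall S W g) {M : ℝ} (hM0 : 0 ≤ M)
    (hM : ∀ s ∈ S, disp s x0 ≤ M) {a : G} {c : ℝ} (hc : disp a x0 ≤ c) {y : X}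
    (hy : Relation.ReflTransGen (Step a c 1) x0 y) :
    ∀ g : G, dist y (g • x0) ≤ R → ∃ l : List G, IsWord S l ∧ l.prod = g ∧
      ∀ k, disp ((l.take k).prod⁻¹ * a * (l.take k).prod) x0 ≤ c + 2 * R + 2 * (W * M) := by
  have hu : ∀ {l : List G}, IsWord S l → l.length ≤ W → ∀ k (b : G),
      disp ((l.take k).prod⁻¹ * b * (l.take k).prod) x0 ≤ disp b x0 + 2 * (W * M) := by
    intro l hl hlen k b
    have h1 := disp_list hM (hl.take k)
    have h2 : ((l.take k).length : ℝ) ≤ W := by
      rw [List.length_take]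
      exact_mod_cast (min_le_right _ _).trans hlen
    have h3 : disp (l.take k).prod x0 ≤ W * M := h1.trans (by gcongr)
    have h4 := disp_mul x0 ((l.take k).prod⁻¹ * b) (l.take k).prod
    have h5 := disp_mul x0 (l.take k).prod⁻¹ b
    rw [disp_inv] at h5
    linarith
  induction hy with
  | refl =>
    intro g hg
    obtain ⟨l, hl1, hl2, hl3⟩ := hW g (by
      unfold disp
      linarith)
    refine ⟨l, hl2, hl3, fun k => ?_⟩
    have := hu hl2 hl1 k a
    linarith
  | @tail y y' _ hstep ih =>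
    intro g hg
    obtain ⟨g1, hg1⟩ := hR y
    obtain ⟨l1, hl1, hl1p, hl1c⟩ := ih g1 hg1
    obtain ⟨l2, hl2, hl2w, hl2p⟩ := hW (g1⁻¹ * g) (by
      unfold disp
      rw [← dist_smul g1 x0, mul_smul, smul_inv_smul]
      have h3 := dist_triangle4 (g1 • x0) y y' (g • x0)
      rw [dist_comm (g1 • x0) y] at h3
      have h4 := hstep.2.2
      linarith)
    refine ⟨l1 ++ l2, hl1.append hl2w, by rw [List.prod_append, hl1p, hl2p]; group, fun k => ?_⟩
    rcases Nat.lt_or_ge k l1.length with hk | hk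
    · rw [List.take_append_of_le_length hk.le]
      exact hl1c k
    · obtain ⟨j, rfl⟩ := Nat.exists_eq_add_of_le hk
      have e1 : (l1 ++ l2).take (l1.length + j) = l1 ++ l2.take j := by
        rw [List.take_append, List.take_of_length_le (by omega), Nat.add_sub_cancel_left]
      rw [e1, List.prod_append, hl1p]
      have e2 : (g1 * (l2.take j).prod)⁻¹ * a * (g1 * (l2.take j).prod) =
          (l2.take j).prod⁻¹ * (g1⁻¹ * a * g1) * (l2.take j).prod := by group
      rw [e2]
      have h5 := hu hl2w hl2 j (g1⁻¹ * a * g1)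
      have h8 := disp_conj' x0 a g1
      have h6 := disp_lip a (g1 • x0) y
      rw [dist_comm] at h6
      have h7 := hstep.1
      linarith

/-- **Conjugation along words.** -/
theorem exists_path [ProperSpace X] (hX : Straight X)
    (hp : ∀ (x : X) (r : ℝ), {g : G | dist x (g • x) ≤ r}.Finite)
    (hc : ∃ (x : X) (R : ℝ), ∀ y : X, ∃ g : G, dist y (g • x) ≤ R)
    {S : Set G} (hS : S.Finite) (hgen : Subgroup.closure S = ⊤) :
    ∃ K : ℕ, ∀ (n : ℕ) (a h : G), InBall S n a → InBall S n (h⁻¹ * a * h) →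
      ∃ l : List G, l.prod = h ∧ Path S (K * (n + 1)) a l := by
  obtain ⟨x0, R, hR⟩ := hc
  have hR0 : 0 ≤ R := by
    obtain ⟨g, hg⟩ := hR x0
    exact dist_nonneg.trans hg
  obtain ⟨W, hW⟩ := exists_inBall_finite hgen (hp x0 (2 * R + 1))
  have hW' : ∀ g : G, disp g x0 ≤ 2 * R + 1 → InBall S W g := fun g hg => hW g hg
  obtain ⟨M0, hM0⟩ := (hS.image fun s => disp s x0).bddAbove
  obtain ⟨M, hM⟩ := exists_nat_ge (max M0 0)
  have hMs : ∀ s ∈ S, disp s x0 ≤ (M : ℝ) := fun s hs =>
    (hM0 ⟨s, hs, rfl⟩).trans ((le_max_left _ _).trans hM)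
  obtain ⟨M', hM'⟩ := exists_nat_ge (1 + 2 * R + 2 * (W * M))
  refine ⟨2 * (M + M') * W, fun n a h ha hh => ?_⟩
  have hn : ∀ g : G, InBall S n g → disp g x0 ≤ n * M := by
    rintro g ⟨l, hl1, hl2, rfl⟩
    refine (disp_list hMs hl2).trans ?_
    have : (l.length : ℝ) ≤ n := by exact_mod_cast hl1
    gcongr
  have h1 := hn a ha
  have h2 := hn _ hh
  rw [disp_conj'] at h2
  have h3 := hX.sublevel hp ⟨x0, R, hR⟩ a (c := n * M + 1) (δ := 1) one_pos (x := x0) (y := h • x0)
    (by linarith) (by linarith)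
  obtain ⟨l, hl1, hl2, hl3⟩ := word_of_chain hR0 hR hW' (Nat.cast_nonneg M) hMs
    (a := a) (c := n * M + 1) (by linarith) h3 h (by rw [dist_self]; exact hR0)
  refine ⟨l, hl2, hl1, fun k => ?_⟩
  have hM'1 : 1 ≤ M' := by
    have h4 : (1 : ℝ) ≤ M' := by
      have : (0 : ℝ) ≤ W * M := by positivity
      linarith
    exact_mod_cast h4
  have h5 := short_of_disp' hX hR0 hR hW' (r := n * M + M') (by omega)
    (g := (l.take k).prod⁻¹ * a * (l.take k).prod) (by
      have := hl3 k
      push_cast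
      linarith)
  refine h5.mono ?_
  have h6 : n * M + M' ≤ (M + M') * (n + 1) := by
    calc n * M + M' ≤ n * M + M' + (M + n * M') := Nat.le_add_right _ _
      _ = (M + M') * (n + 1) := by ring
  calc 2 * (n * M + M') * W ≤ 2 * ((M + M') * (n + 1)) * W := by gcongr
    _ = 2 * (M + M') * W * (n + 1) := by ring

end Pool.Agent.SHC
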