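import Mathlib

/-!
# SHC: displacement functions on spaces in which local geodesics are geodesics

`Straight X`: unique midpoints, and locally straight chains are straight.  For an isometry `γ` in a
group acting properly and cocompactly, the sublevel sets of the displacement function of `γ`
are chain connected.
-/

namespace Pool.Agent.SHC

open Filter Topology Metric

/-- `y` lies between `x` and `z`. -/
def Btw {X : Type*} [MetricSpace X] (x y z : X) : Prop := dist x y + dist y z = dist x z

/-- Unique midpoints, and locally straight chains are straight. -/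
structure Straight (X : Type*) [MetricSpace X] : Prop where
  mid : ∀ x y : X, ∃! m : X, dist x m = dist x y / 2 ∧ dist m y = dist x y / 2
  loc : ∀ x y z w : X, y ≠ z → Btw x y z → Btw y z w → Btw x y w

variable {X : Type*} [MetricSpace X]

/-- The midpoint. -/
noncomputable def Straight.m (hX : Straight X) (x y : X) : X := (hX.mid x y).choose

theorem Straight.m_left (hX : Straight X) (x y : X) : dist x (hX.m x y) = dist x y / 2 :=
  (hX.mid x y).choose_spec.1.1

theorem Straight.m_right (hX : Straight X) (x y : X) : dist (hX.m x y) y = dist x y / 2 :=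
  (hX.mid x y).choose_spec.1.2

theorem Straight.m_unique (hX : Straight X) {x y m : X} (h1 : dist x m = dist x y / 2)
    (h2 : dist m y = dist x y / 2) : m = hX.m x y :=
  (hX.mid x y).choose_spec.2 m ⟨h1, h2⟩

theorem Straight.m_btw (hX : Straight X) (x y : X) : Btw x (hX.m x y) y := by
  unfold Btw
  rw [hX.m_left, hX.m_right]
  ring

theorem Btw.left (x y : X) : Btw x x y := by simp [Btw]

theorem Btw.right (x y : X) : Btw x y y := by simp [Btw]

theorem Btw.symm {x y z : X} (h : Btw x y z) : Btw z y x := by
  unfold Btw at *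
  rw [dist_comm z y, dist_comm y x, dist_comm z x]
  linarith

theorem Btw.trans_left {x p m y : X} (h1 : Btw x m y) (h2 : Btw x p m) : Btw x p y := by
  unfold Btw at *
  have h3 := dist_triangle x p y
  have h4 := dist_triangle p m y
  linarith

theorem Btw.trans_right {x p m y : X} (h1 : Btw x m y) (h2 : Btw m p y) : Btw x p y :=
  (h1.symm.trans_left h2.symm).symm

/-- The midpoint map is continuous. -/
theorem Straight.m_continuous [ProperSpace X] (hX : Straight X) :
    Continuous fun p : X × X => hX.m p.1 p.2 := by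
  rw [continuous_iff_seqContinuous]
  intro u p hu
  refine tendsto_of_subseq_tendsto fun ns hns => ?_
  have h1 : Tendsto (fun n => u (ns n)) atTop (𝓝 p) := hu.comp hns
  have hx : Tendsto (fun n => (u (ns n)).1) atTop (𝓝 p.1) :=
    (continuous_fst.tendsto p).comp h1
  have hy : Tendsto (fun n => (u (ns n)).2) atTop (𝓝 p.2) :=
    (continuous_snd.tendsto p).comp h1
  -- boundedness
  have hb : ∀ᶠ n in atTop, hX.m (u (ns n)).1 (u (ns n)).2 ∈ closedBall p.1 (dist p.1 p.2 + 3) := by
    have e1 := (Metric.tendsto_atTop.mp hx) 1 one_pos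
    have e2 := (Metric.tendsto_atTop.mp hy) 1 one_pos
    obtain ⟨N1, hN1⟩ := e1
    obtain ⟨N2, hN2⟩ := e2
    filter_upwards [eventually_ge_atTop (max N1 N2)] with n hn
    have a1 := hN1 n (le_trans (le_max_left _ _) hn)
    have a2 := hN2 n (le_trans (le_max_right _ _) hn)
    rw [mem_closedBall]
    have a3 := hX.m_left (u (ns n)).1 (u (ns n)).2
    have a4 := dist_triangle (hX.m (u (ns n)).1 (u (ns n)).2) (u (ns n)).1 p.1
    have a5 := dist_triangle (u (ns n)).1 p.1 (u (ns n)).2
    have a6 := dist_triangle p.1 p.2 (u (ns n)).2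
    rw [dist_comm (hX.m (u (ns n)).1 (u (ns n)).2) (u (ns n)).1] at a4
    rw [dist_comm p.2 (u (ns n)).2] at a6
    have a7 : 0 ≤ dist p.1 p.2 := dist_nonneg
    linarith
  obtain ⟨a, -, φ, hφ, ha⟩ := tendsto_subseq_of_frequently_bounded isBounded_closedBall hb.frequently
  refine ⟨φ, ?_⟩
  have hx2 := hx.comp hφ.tendsto_atTop
  have hy2 := hy.comp hφ.tendsto_atTop
  have e1 : dist p.1 a = dist p.1 p.2 / 2 := by
    refine tendsto_nhds_unique (hx2.dist ha) ?_
    have := (hx2.dist hy2).div_const 2
    refine this.congr fun n => ?_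
    simp only [Function.comp]
    exact (hX.m_left _ _).symm
  have e2 : dist a p.2 = dist p.1 p.2 / 2 := by
    refine tendsto_nhds_unique (ha.dist hy2) ?_
    have := (hx2.dist hy2).div_const 2
    refine this.congr fun n => ?_
    simp only [Function.comp]
    exact (hX.m_right _ _).symm
  have e3 := hX.m_unique e1 e2
  show Tendsto _ _ (𝓝 (hX.m p.1 p.2))
  rw [← e3]
  exact ha

/-- Fine chains between two points. -/
theorem Straight.chain (hX : Straight X) {δ : ℝ} : ∀ (n : ℕ) (x y : X), dist x y ≤ 2 ^ n * δ →
    Relation.ReflTransGen (fun p q => Btw x p y ∧ Btw x q y ∧ dist p q ≤ δ) x y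
  | 0, x, y, h => by
    refine Relation.ReflTransGen.single ⟨Btw.left x y, Btw.right x y, ?_⟩
    simpa using h
  | n + 1, x, y, h => by
    have h1 : dist x (hX.m x y) ≤ 2 ^ n * δ := by
      rw [hX.m_left]
      rw [pow_succ] at h
      linarith
    have h2 : dist (hX.m x y) y ≤ 2 ^ n * δ := by
      rw [hX.m_right]
      rw [pow_succ] at h
      linarith
    refine Relation.ReflTransGen.trans
      (Relation.ReflTransGen.mono ?_ _ _ (Straight.chain hX n x (hX.m x y) h1))
      (Relation.ReflTransGen.mono ?_ _ _ (Straight.chain hX n (hX.m x y) y h2))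
    · rintro p q ⟨a, b, c⟩
      exact ⟨(hX.m_btw x y).trans_left a, (hX.m_btw x y).trans_left b, c⟩
    · rintro p q ⟨a, b, c⟩
      exact ⟨(hX.m_btw x y).trans_right a, (hX.m_btw x y).trans_right b, c⟩

theorem Straight.chain' (hX : Straight X) {δ : ℝ} (hδ : 0 < δ) (x y : X) :
    Relation.ReflTransGen (fun p q => Btw x p y ∧ Btw x q y ∧ dist p q ≤ δ) x y := by
  obtain ⟨n, hn⟩ := pow_unbounded_of_one_lt (dist x y / δ) (by norm_num : (1 : ℝ) < 2)
  refine hX.chain n x y ?_
  rw [div_lt_iff₀ hδ] at hn
  exact hn.le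

section action

variable {G : Type*} [Group G] [MulAction G X] [IsIsometricSMul G X]

set_option linter.unusedSectionVars false

theorem Btw.smul {x y z : X} (h : Btw x y z) (g : G) : Btw (g • x) (g • y) (g • z) := by
  unfold Btw at *
  rw [dist_smul, dist_smul, dist_smul]
  exact h

theorem Straight.m_smul (hX : Straight X) (g : G) (x y : X) :
    hX.m (g • x) (g • y) = g • hX.m x y := by
  refine (hX.m_unique ?_ ?_).symm
  · rw [dist_smul, dist_smul, hX.m_left]
  · rw [dist_smul, dist_smul, hX.m_right]

/-- The displacement. -/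
def disp (γ : G) (x : X) : ℝ := dist x (γ • x)

theorem disp_nonneg (γ : G) (x : X) : 0 ≤ disp γ x := dist_nonneg

theorem disp_continuous (γ : G) : Continuous (disp γ : X → ℝ) :=
  continuous_id.dist (isometry_smul X γ).continuous

theorem disp_conj (γ g : G) (x : X) : disp (g⁻¹ * γ * g) (g⁻¹ • x) = disp γ x := by
  unfold disp
  rw [smul_smul, mul_assoc, mul_inv_cancel, mul_one, mul_smul, dist_smul]

theorem disp_lip (γ : G) (x y : X) : disp γ x ≤ disp γ y + 2 * dist x y := by
  unfold disp
  have h1 := dist_triangle4 x y (γ • y) (γ • x)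
  rw [dist_smul, dist_comm y x] at h1
  linarith

theorem disp_btw {γ : G} {x p : X} (h : Btw x p (γ • x)) : disp γ p ≤ disp γ x := by
  unfold Btw at h
  unfold disp
  have h1 := dist_triangle p (γ • x) (γ • p)
  rw [dist_smul] at h1
  linarith

theorem disp_pow (γ : G) (y : X) (n : ℕ) : dist y (γ ^ n • y) ≤ n * disp γ y := by
  induction n with
  | zero => simp
  | succ n ih =>
    have h4 := dist_triangle y (γ ^ n • y) (γ ^ (n + 1) • y)
    rw [pow_succ, mul_smul, dist_smul] at h4
    rw [pow_succ, mul_smul]
    push_cast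
    have h8 : dist y (γ • y) = disp γ y := rfl
    linarith

/-- The Birkhoff map. -/
noncomputable def Straight.T (hX : Straight X) (γ : G) (x : X) : X := hX.m x (γ • x)

theorem Straight.T_continuous [ProperSpace X] (hX : Straight X) (γ : G) :
    Continuous (hX.T γ : X → X) :=
  hX.m_continuous.comp (continuous_id.prodMk (isometry_smul X γ).continuous)

theorem Straight.disp_T (hX : Straight X) (γ : G) (x : X) : disp γ (hX.T γ x) ≤ disp γ x :=
  disp_btw (hX.m_btw _ _)

theorem Straight.T_conj (hX : Straight X) (γ g : G) (x : X) :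
    hX.T (g⁻¹ * γ * g) (g⁻¹ • x) = g⁻¹ • hX.T γ x := by
  unfold Straight.T
  rw [smul_smul, mul_assoc, mul_inv_cancel, mul_one, mul_smul, hX.m_smul]

/-- A chain which is locally straight is straight. -/
theorem Straight.ray (hX : Straight X) {s : ℝ} (hs : 0 < s) {p : ℕ → X}
    (h1 : ∀ k, dist (p k) (p (k + 1)) = s) (h2 : ∀ k, dist (p k) (p (k + 2)) = 2 * s) :
    ∀ k, dist (p 0) (p k) = k * s ∧ dist (p 0) (p (k + 1)) = (k + 1) * s := by
  intro k
  induction k with
  | zero => exact ⟨by simp, by simpa using h1 0⟩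
  | succ k ih =>
    obtain ⟨ih1, ih2⟩ := ih
    refine ⟨by push_cast; exact ih2, ?_⟩
    have hne : p k ≠ p (k + 1) := by
      intro h
      have := h1 k
      rw [h, dist_self] at this
      linarith
    have b1 : Btw (p 0) (p k) (p (k + 1)) := by
      unfold Btw
      rw [ih1, ih2, h1]
      ring
    have b2 : Btw (p k) (p (k + 1)) (p (k + 2)) := by
      unfold Btw
      rw [h1, h1, h2]
      ring
    have b3 := hX.loc _ _ _ _ hne b1 b2
    unfold Btw at b3
    rw [ih1, h2] at b3
    push_cast
    rw [show k + 1 + 1 = k + 2 from rfl, ← b3]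
    ring

/-- If the Birkhoff map does not decrease the displacement, then the displacement is minimal. -/
theorem Straight.min_of_eq (hX : Straight X) {γ : G} {x : X}
    (h : disp γ (hX.T γ x) = disp γ x) (y : X) : disp γ x ≤ disp γ y := by
  rcases (disp_nonneg γ x).eq_or_lt with h0 | h0
  · rw [← h0]
    exact disp_nonneg γ y
  set d := disp γ x with hd
  set m := hX.T γ x with hm
  have hd' : dist x (γ • x) = d := rfl
  have e1 : dist x m = d / 2 := hX.m_left _ _
  have e2 : dist m (γ • x) = d / 2 := hX.m_right _ _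
  have b1 : Btw x m (γ • x) := hX.m_btw _ _
  have e3 : dist m (γ • m) = d := h
  have b2 : Btw m (γ • x) (γ • m) := by
    unfold Btw
    rw [dist_smul, e1, e2, e3]
    ring
  have hne : m ≠ γ • x := by
    intro h
    rw [h, dist_self] at e2
    linarith
  have b3 := hX.loc _ _ _ _ hne b1 b2
  have e4 : dist x (γ • m) = 3 / 2 * d := by
    unfold Btw at b3
    rw [e1, e3] at b3
    rw [← b3]
    ring
  -- from `x, γ x, γ m, γ² x`
  have b4 : Btw x (γ • x) (γ • m) := by
    unfold Btw
    rw [dist_smul, hd', e1, e4]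
    ring
  have b5 : Btw (γ • x) (γ • m) (γ • γ • x) := b1.smul γ
  have hne2 : γ • x ≠ γ • m := by
    intro h
    have : dist (γ • x) (γ • m) = 0 := by rw [h, dist_self]
    rw [dist_smul, e1] at this
    linarith
  have b6 := hX.loc _ _ _ _ hne2 b4 b5
  have e5 : dist x (γ • γ • x) = 2 * d := by
    unfold Btw at b6
    rw [dist_smul, hd'] at b6
    rw [← b6]
    ring
  have hray := hX.ray h0 (p := fun n => γ ^ n • x) (by
    intro k
    rw [pow_succ, mul_smul, dist_smul, hd']) (by
    intro k
    rw [pow_succ, pow_succ, mul_smul, mul_smul, dist_smul, e5])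
  have hn : ∀ n : ℕ, n * d ≤ 2 * dist x y + n * disp γ y := by
    intro n
    have h1 := (hray n).1
    simp only [pow_zero, one_smul] at h1
    have h2 := dist_triangle4 x y (γ ^ n • y) (γ ^ n • x)
    rw [dist_smul, dist_comm y x] at h2
    have h3 := disp_pow γ y n
    linarith
  by_contra hc
  push Not at hc
  obtain ⟨n, hn2⟩ := exists_nat_gt (2 * dist x y / (d - disp γ y))
  rw [div_lt_iff₀ (by linarith)] at hn2
  have := hn n
  nlinarith

end action

end Pool.Agent.SHC
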